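import Pool.Agent.N889.AO.Stm

/-! Project AO (helper889), task LMAT: the matrix of an isomorphism after extension of scalars. -/

set_option autoImplicit false
open Matrix
open scoped TensorProduct

namespace Pool.Agent.N46.AO

open Pool.Agent.N889.AO

variable {ι : Type} [Fintype ι] [DecidableEq ι]

/-- coordinates of the bracket -/
lemma coord {L : Type} [LieRing L] [LieAlgebra ℝ L] (B : Module.Basis ι ℝ L) (c : ι → ι → ι → ℤ)
    (h : ∀ i j, ⁅B i, B j⁆ = ∑ k, (c i j k : ℝ) • B k) (x y : L) :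
    B.equivFun ⁅x, y⁆ = mulc c ℝ (B.equivFun x) (B.equivFun y) := by
  have h1 : ((LieModule.toEnd ℝ L L : L →ₗ[ℝ] Module.End ℝ L)).compr₂ (B.equivFun : L →ₗ[ℝ] (ι → ℝ)) =
      (mulB c ℝ).compl₁₂ (B.equivFun : L →ₗ[ℝ] (ι → ℝ)) (B.equivFun : L →ₗ[ℝ] (ι → ℝ)) := by
    refine B.ext fun i => B.ext fun j => ?_
    simp only [LinearMap.compr₂_apply, LinearMap.compl₁₂_apply, mulB_apply]
    have e1 : ∀ i, B.equivFun (B i) = Pi.single i 1 := by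
      intro i
      funext j
      rw [Module.Basis.equivFun_self, Pi.single_apply]
      simp only [eq_comm]
    change B.equivFun ⁅B i, B j⁆ = mulc c ℝ (B.equivFun (B i)) (B.equivFun (B j))
    rw [h, e1, e1]
    funext k
    rw [mulc_single, map_sum, Finset.sum_apply]
    simp only [map_smul, e1, Pi.smul_apply, Pi.single_apply, smul_eq_mul]
    simp
  exact LinearMap.congr_fun (LinearMap.congr_fun h1 x) y

lemma mor {L L' : Type} [LieRing L] [LieAlgebra ℝ L] [LieRing L'] [LieAlgebra ℝ L']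
    (B : Module.Basis ι ℝ L) (B' : Module.Basis ι ℝ L') (c c' : ι → ι → ι → ℤ)
    (h : ∀ i j, ⁅B i, B j⁆ = ∑ k, (c i j k : ℝ) • B k)
    (h' : ∀ i j, ⁅B' i, B' j⁆ = ∑ k, (c' i j k : ℝ) • B' k)
    (Φ : L →ₗ[ℝ] L') (hΦ : ∀ x y, Φ ⁅x, y⁆ = ⁅Φ x, Φ y⁆) :
    IsMor c c' ℝ (LinearMap.toMatrix B B' Φ) := by
  have key : ∀ X : L, LinearMap.toMatrix B B' Φ *ᵥ B.equivFun X = B'.equivFun (Φ X) := by
    intro X
    rw [Module.Basis.equivFun_apply, Module.Basis.equivFun_apply]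
    exact LinearMap.toMatrix_mulVec_repr B B' Φ X
  intro x y
  obtain ⟨X, rfl⟩ := B.equivFun.surjective x
  obtain ⟨Y, rfl⟩ := B.equivFun.surjective y
  rw [← coord B c h, key, key, key, hΦ, coord B' c' h']

omit [DecidableEq ι] in
lemma ext_bracket {M : Type} [LieRing M] [LieAlgebra ℚ M] (b : Module.Basis ι ℚ M)
    (c : ι → ι → ι → ℤ) (h : ∀ i j, ⁅b i, b j⁆ = ∑ k, (c i j k : ℚ) • b k) (i j : ι) :
    ⁅Algebra.TensorProduct.basis ℝ b i, Algebra.TensorProduct.basis ℝ b j⁆ =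
      ∑ k, (c i j k : ℝ) • Algebra.TensorProduct.basis ℝ b k := by
  simp only [Algebra.TensorProduct.basis_apply]
  rw [LieAlgebra.ExtendScalars.bracket_tmul, h, mul_one, TensorProduct.tmul_sum]
  refine Finset.sum_congr rfl fun k _ => ?_
  rw [TensorProduct.tmul_smul, TensorProduct.smul_tmul', TensorProduct.smul_tmul']
  congr 1

theorem stmLmat : StmLmat := by
  intro ι _ _ M N _ _ _ _ b b' c c' h h' hiso
  obtain ⟨Φ⟩ := hiso
  obtain ⟨B, hB⟩ : ∃ B, B = Algebra.TensorProduct.basis ℝ b := ⟨_, rfl⟩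
  obtain ⟨B', hB'⟩ : ∃ B', B' = Algebra.TensorProduct.basis ℝ b' := ⟨_, rfl⟩
  have hh : ∀ i j, ⁅B i, B j⁆ = ∑ k, (c i j k : ℝ) • B k := by
    rw [hB]
    exact ext_bracket b c h
  have hh' : ∀ i j, ⁅B' i, B' j⁆ = ∑ k, (c' i j k : ℝ) • B' k := by
    rw [hB']
    exact ext_bracket b' c' h'
  refine ⟨LinearMap.toMatrix B B' (Φ : (ℝ ⊗[ℚ] M) →ₗ[ℝ] (ℝ ⊗[ℚ] N)),
    LinearMap.toMatrix B' B (Φ.symm : (ℝ ⊗[ℚ] N) →ₗ[ℝ] (ℝ ⊗[ℚ] M)), ?_, ?_,
    mor B B' c c' hh hh' _ fun x y => ?_, mor B' B c' c hh' hh _ fun x y => ?_⟩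
  · rw [← LinearMap.toMatrix_comp B' B B']
    have e1 : (Φ : (ℝ ⊗[ℚ] M) →ₗ[ℝ] (ℝ ⊗[ℚ] N)) ∘ₗ (Φ.symm : (ℝ ⊗[ℚ] N) →ₗ[ℝ] (ℝ ⊗[ℚ] M)) =
        LinearMap.id := by
      apply LinearMap.ext
      intro x
      exact Φ.apply_symm_apply x
    rw [e1, LinearMap.toMatrix_id]
  · rw [← LinearMap.toMatrix_comp B B' B]
    have e1 : (Φ.symm : (ℝ ⊗[ℚ] N) →ₗ[ℝ] (ℝ ⊗[ℚ] M)) ∘ₗ (Φ : (ℝ ⊗[ℚ] M) →ₗ[ℝ] (ℝ ⊗[ℚ] N)) =
        LinearMap.id := by
      apply LinearMap.ext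
      intro x
      exact Φ.symm_apply_apply x
    rw [e1, LinearMap.toMatrix_id]
  · exact LieEquiv.map_lie Φ x y
  · exact LieEquiv.map_lie Φ.symm x y

end Pool.Agent.N46.AO
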